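import Mathlib
import Pool.Agent.H.MP_8db9bd_an.B

set_option autoImplicit false

namespace Pool.Agent.Results.MP_8db9bd_an.Hilbert

open scoped InnerProductSpace

section
variable {X : Type} [NormedAddCommGroup X] [NormedSpace ℂ X]

/-- values of the norm on the unit sphere -/
def norms (P : X → X) : Set ℝ := {r | ∃ x : X, ‖x‖ = 1 ∧ r = ‖P x‖}

/-- moduli of the points of the numerical range -/
def range (P : X → X) : Set ℝ :=
  {r | ∃ (x : X) (l : X →L[ℂ] ℂ), ‖x‖ = 1 ∧ ‖l‖ = 1 ∧ l x = 1 ∧ r = ‖l (P x)‖}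

end

/-- polynomial numerical index of order `k` -/
noncomputable def index (k : ℕ) (X : Type) [NormedAddCommGroup X] [NormedSpace ℂ X] : ℝ :=
  sInf {r | ∃ A : ContinuousMultilinearMap ℂ (fun _ : Fin k => X) X,
    sSup (norms fun x => A fun _ => x) = 1 ∧ r = sSup (range fun x => A fun _ => x)}

lemma range_eq {E : Type} [NormedAddCommGroup E] [InnerProductSpace ℂ E] [CompleteSpace E] (P : E → E) :
    range P = {r | ∃ x : E, ‖x‖ = 1 ∧ r = ‖⟪x, P x⟫_ℂ‖} := by
  ext r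
  constructor
  · rintro ⟨x, l, a, b, c, rfl⟩
    exact ⟨x, a, by rw [H.MP_8db9bd_an.riesz x l a b c]⟩
  · rintro ⟨x, a, rfl⟩
    exact ⟨x, innerSL ℂ x, a, by simp [a], by simp [a], rfl⟩

lemma bdd {E : Type} [NormedAddCommGroup E] [NormedSpace ℂ E] {k : ℕ}
    (A : ContinuousMultilinearMap ℂ (fun _ : Fin k => E) E) :
    BddAbove (range fun x => A fun _ => x) := by
  refine ⟨‖A‖, ?_⟩
  rintro _ ⟨x, l, a, b, -, rfl⟩
  simpa [a, b] using (l.le_opNorm _).trans
    (mul_le_mul_of_nonneg_left (A.le_opNorm fun _ => x) (norm_nonneg l))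

theorem result (k : ℕ) (hk : 2 ≤ k) (E : Type) [NormedAddCommGroup E] [InnerProductSpace ℂ E]
    [CompleteSpace E] :
    (2 ≤ Module.rank ℂ E → index k E = Real.sqrt ((k : ℝ) ^ k / (k + 1) ^ (k + 1))) ∧
    (Module.rank ℂ E = 1 → index k E = 1) := by
  constructor
  · intro h
    obtain ⟨f, hf⟩ := exists_linearIndependent_of_le_rank (n := 2) h
    have he := InnerProductSpace.gramSchmidtNormed_orthonormal hf
    obtain ⟨A, h1, h2⟩ := H.MP_8db9bd_an.upper k (by omega) _ he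
    have c0 : 0 < Real.sqrt ((k : ℝ) ^ k / (k + 1) ^ (k + 1)) :=
      Real.sqrt_pos.2 (div_pos (pow_pos (by exact_mod_cast (by omega : 0 < k)) _) (by positivity))
    have lo : ∀ r ∈ {r | ∃ A : ContinuousMultilinearMap ℂ (fun _ : Fin k => E) E,
        sSup (norms fun x => A fun _ => x) = 1 ∧ r = sSup (range fun x => A fun _ => x)},
        Real.sqrt ((k : ℝ) ^ k / (k + 1) ^ (k + 1)) ≤ r := by
      rintro _ ⟨B, hB, rfl⟩
      have k1 := H.MP_8db9bd_an.lower k hk B (v := sSup (range fun x => B fun _ => x))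
        fun x hx => le_csSup (bdd B) (by rw [range_eq]; exact ⟨x, hx, rfl⟩)
      rw [← one_le_div c0]
      refine hB.symm.le.trans (csSup_le ⟨_, _, he.1 0, rfl⟩ ?_)
      rintro _ ⟨x, hx, rfl⟩
      exact (le_div_iff₀ c0).2 (k1 x hx)
    have nA : sSup (norms fun x => A fun _ => x) = 1 := by
      refine IsGreatest.csSup_eq ⟨⟨_, he.1 0, h1.symm⟩, ?_⟩
      rintro _ ⟨x, hx, rfl⟩
      exact (h2 x hx).1
    refine le_antisymm (le_trans (b := sSup (range fun x => A fun _ => x))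
      (csInf_le ⟨_, lo⟩ ⟨A, nA, rfl⟩) (Real.sSup_le ?_ c0.le)) (le_csInf ⟨_, A, nA, rfl⟩ lo)
    rw [range_eq]
    rintro _ ⟨x, hx, rfl⟩
    exact (h2 x hx).2
  · intro h
    obtain ⟨v, v0, hv⟩ := rank_eq_one_iff.1 h
    have key : ∀ x y : E, ‖x‖ = 1 → ‖⟪x, y⟫_ℂ‖ = ‖y‖ := by
      intro x y hx
      obtain ⟨a, rfl⟩ := hv x
      obtain ⟨b, rfl⟩ := hv y
      rw [norm_smul] at hx
      rw [inner_smul_left, inner_smul_right, inner_self_eq_norm_sq_to_K, norm_smul]
      simp only [norm_mul, Complex.norm_conj, norm_pow, RCLike.norm_ofReal, abs_norm]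
      linear_combination ‖b‖ * ‖v‖ * hx
    have e : ∀ P : E → E, range P = norms P := fun P => by
      rw [range_eq]
      ext r
      exact exists_congr fun x => and_congr_right fun hx => by rw [key x _ hx]
    have n1 : ‖(‖v‖⁻¹ : ℂ) • v‖ = 1 := by rw [norm_smul]; simp [v0]
    refine IsLeast.csInf_eq ⟨⟨((ContinuousMultilinearMap.mkPiAlgebra ℂ (Fin k)
      ℂ).compContinuousLinearMap fun _ => innerSL ℂ ((‖v‖⁻¹ : ℂ) • v)).smulRight
        ((‖v‖⁻¹ : ℂ) • v), (and_iff_left_of_imp fun a => by rw [e, a]).2 ?_⟩, ?_⟩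
    · generalize (‖v‖⁻¹ : ℂ) • v = u at n1
      have : ∀ x : E, ‖x‖ = 1 → ‖((ContinuousMultilinearMap.mkPiAlgebra ℂ (Fin k)
          ℂ).compContinuousLinearMap fun _ => innerSL ℂ u).smulRight u fun _ => x‖ = 1 :=
        fun x hx => by simp [norm_smul, n1, key u x n1, hx]
      refine IsGreatest.csSup_eq ⟨⟨u, n1, (this u n1).symm⟩, ?_⟩
      rintro _ ⟨x, hx, rfl⟩
      exact (this x hx).le
    · rintro _ ⟨B, hB, rfl⟩
      rw [e, hB]

end Pool.Agent.Results.MP_8db9bd_an.Hilbert
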